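import Pool.Agent.KK.StmtsD

/-!
# Squad KK, row CSY: crossing downwards
-/

set_option autoImplicit false

open scoped BigOperators

namespace Pool.Agent.KK.H32

section
variable {V : Type} [Fintype V] [DecidableEq V]

theorem xc_compl (X : Finset V) {m : ℕ} (f : Fin m → V) : xc Xᶜ f + xc X f = m := by
  unfold xc
  have h1 : (Finset.univ.filter fun i => f i ∈ Xᶜ) = (Finset.univ.filter fun i => ¬ f i ∈ X) := by
    apply Finset.filter_congr
    intro i _
    exact Finset.mem_compl
  rw [h1, add_comm, Finset.card_filter_add_card_filter_not, Finset.card_univ, Fintype.card_fin]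

theorem td_compl (H : Finset (Finset V)) (X : Finset V) (m j : ℕ) (hj : j ≤ m) :
    td H m Xᶜ (m - j) = td H m X j := by
  unfold td
  congr 1
  ext f
  have h := xc_compl X f
  constructor
  · rintro ⟨h1, h2⟩
    exact ⟨h1, by omega⟩
  · rintro ⟨h1, h2⟩
    exact ⟨h1, by omega⟩

/-- shifting by `s` modulo `m` -/
theorem val_shift (d s : ℕ) (hs : s ≤ d + 2) (u : ZMod (d + 2)) :
    (u + (s : ZMod (d + 2))).val < s ↔ ¬ u.val < d + 2 - s := by
  have hu : u.val < d + 2 := ZMod.val_lt u
  have h1 : (u + (s : ZMod (d + 2))).val = (u.val + s) % (d + 2) := by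
    rw [ZMod.val_add, ZMod.val_natCast, Nat.add_mod_mod]
  rw [h1]
  by_cases h : u.val + s < d + 2
  · rw [Nat.mod_eq_of_lt h]
    omega
  · have h2 : (u.val + s) % (d + 2) = u.val + s - (d + 2) := by
      rw [Nat.mod_eq_sub_mod (by omega)]
      exact Nat.mod_eq_of_lt (by omega)
    rw [h2]
    omega

theorem can_compl (X : Finset V) (d s : ℕ) (hs : s ≤ d + 2) (z : Sta V d)
    (hz : z ∈ can Xᶜ d (d + 2 - s)) :
    ((z.1, z.2 + (s : ZMod (d + 2))) : Sta V d) ∈ can X d s := by
  intro i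
  have h := hz i
  show z.1 i ∈ X ↔ (z.2 + (s : ZMod (d + 2)) + ((i : ℕ) : ZMod (d + 2))).val < s
  rw [Finset.mem_compl] at h
  have h1 : z.2 + (s : ZMod (d + 2)) + ((i : ℕ) : ZMod (d + 2)) =
      z.2 + ((i : ℕ) : ZMod (d + 2)) + (s : ZMod (d + 2)) := by ring
  rw [h1, val_shift d s hs, ← h, not_not]

theorem ncard_compl (X : Finset V) (d s : ℕ) (hs : s ≤ d + 2) (T : Set (List V)) :
    {z : Sta V d | z ∈ can Xᶜ d (d + 2 - s) ∧ List.ofFn z.1 ∉ T}.ncard ≤
      {z : Sta V d | z ∈ can X d s ∧ List.ofFn z.1 ∉ T}.ncard := by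
  apply Set.ncard_le_ncard_of_injOn (fun z : Sta V d => (z.1, z.2 + (s : ZMod (d + 2))))
  · intro z hz
    exact ⟨can_compl X d s hs z hz.1, hz.2⟩
  · intro z _ w _ h
    have h1 := congrArg Prod.fst h
    have h2 := congrArg Prod.snd h
    exact Prod.ext h1 (add_right_cancel h2)

end

/-- CSY -/
theorem csy : CsyStmt := by
  intro d C₀ C n₀ γ hyp V _ _ H X j S T hn hU hD h1 hj hX htd hS hT
  have hc : (((Xᶜ : Finset V).card : ℕ) : ℝ) = Fintype.card V - X.card := by
    rw [Finset.card_compl, Nat.cast_sub (Finset.card_le_univ X)]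
  apply hyp V H Xᶜ (d + 2 - j) T S hn hU hD (by omega) (by omega)
  · rw [hc]
    have h2 : (Fintype.card V : ℝ) - X.card - Fintype.card V / 2 =
        -((X.card : ℝ) - Fintype.card V / 2) := by ring
    rw [h2, abs_neg]
    exact hX
  · rw [td_compl H X (d + 2) j (by omega)]
    exact htd
  · have h2 := ncard_compl X d (j + 1) (by omega) T
    have h3 : d + 2 - (j + 1) = d + 2 - j - 1 := by omega
    rw [h3] at h2
    exact le_trans (by exact_mod_cast h2) hT
  · have h2 := ncard_compl X d (j - 1) (by omega) S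
    have h3 : d + 2 - (j - 1) = d + 2 - j + 1 := by omega
    rw [h3] at h2
    exact le_trans (by exact_mod_cast h2) hS

end Pool.Agent.KK.H32
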