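import Pool.Agent.KK.StmtsE

/-!
# Squad KK, row E_PUL: pull-back of densities along an injection
-/

set_option autoImplicit false

open scoped BigOperators Classical

namespace Pool.Agent.KK.E.H32

section
variable {V ι κ : Type}

/-- the index type split along an injection -/
noncomputable def spl (φ : κ → ι) (hφ : Function.Injective φ) :
    κ ⊕ ((Set.range φ)ᶜ : Set ι) ≃ ι :=
  (Equiv.sumCongr (Equiv.ofInjective φ hφ) (Equiv.refl _)).trans (Equiv.Set.sumCompl (Set.range φ))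

theorem spl_inl (φ : κ → ι) (hφ : Function.Injective φ) (k : κ) :
    spl φ hφ (Sum.inl k) = φ k := by
  simp [spl]

theorem spl_inr (φ : κ → ι) (hφ : Function.Injective φ) (i : ((Set.range φ)ᶜ : Set ι)) :
    spl φ hφ (Sum.inr i) = i := by
  simp [spl]

end

/-- E02 -/
theorem e_pul : StmtE02 := by
  intro V _ _ ι κ _ _ c φ hc hφ P
  obtain ⟨σ, hσ⟩ : ∃ σ, σ = spl φ hφ := ⟨_, rfl⟩
  have hl : ∀ k, σ (Sum.inl k) = φ k := by
    intro k
    rw [hσ]
    exact spl_inl φ hφ k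
  have hr : ∀ i : ((Set.range φ)ᶜ : Set ι), σ (Sum.inr i) = i := by
    intro i
    rw [hσ]
    exact spl_inr φ hφ i
  obtain ⟨T, hT⟩ : ∃ T : Set (κ → V), T = {g | (∀ k, g k ∈ (c ∘ φ) k) ∧ P g} := ⟨_, rfl⟩
  obtain ⟨R, hR⟩ : ∃ R : Set (((Set.range φ)ᶜ : Set ι) → V), 
      R = {g | ∀ i : ((Set.range φ)ᶜ : Set ι), g i ∈ c (i : ι)} := ⟨_, rfl⟩
  have hRc : R.ncard = ∏ i : ((Set.range φ)ᶜ : Set ι), (c i).card := by
    have h1 : R = ((Fintype.piFinset fun i : ((Set.range φ)ᶜ : Set ι) => c i :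
        Finset (((Set.range φ)ᶜ : Set ι) → V)) : Set (((Set.range φ)ᶜ : Set ι) → V)) := by
      ext g
      rw [hR, Finset.mem_coe, Fintype.mem_piFinset]
      rfl
    rw [h1, Set.ncard_coe_finset, Fintype.card_piFinset]
  have hprod : ∏ i, ((c i).card : ℝ) = (∏ k, (((c ∘ φ) k).card : ℝ)) *
      ∏ i : ((Set.range φ)ᶜ : Set ι), ((c i).card : ℝ) := by
    rw [← Equiv.prod_comp σ, Fintype.prod_sum_type]
    congr 1
    · apply Finset.prod_congr rfl
      intro k _
      rw [hl]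
      rfl
    · apply Finset.prod_congr rfl
      intro i _
      rw [hr]
  obtain ⟨m, hm⟩ : ∃ m : (κ → V) × (((Set.range φ)ᶜ : Set ι) → V) → (ι → V),
      ∀ x, m x = Sum.elim x.1 x.2 ∘ σ.symm := ⟨_, fun _ => rfl⟩
  have hml : ∀ x k, m x (φ k) = x.1 k := by
    intro x k
    rw [hm, Function.comp_apply, ← hl, Equiv.symm_apply_apply, Sum.elim_inl]
  have hmr : ∀ (x : (κ → V) × (((Set.range φ)ᶜ : Set ι) → V)) (i : ((Set.range φ)ᶜ : Set ι)),
      m x i = x.2 i := by
    intro x i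
    rw [hm, Function.comp_apply]
    have h1 : σ.symm (i : ι) = Sum.inr i := by
      rw [Equiv.symm_apply_eq, hr]
    rw [h1, Sum.elim_inr]
  have hS : {f : ι → V | (∀ i, f i ∈ c i) ∧ P (f ∘ φ)} = m '' (T ×ˢ R) := by
    ext f
    constructor
    · rintro ⟨h1, h2⟩
      refine ⟨(f ∘ φ, fun i => f i), ⟨?_, ?_⟩, ?_⟩
      · rw [hT]
        exact ⟨fun k => h1 (φ k), h2⟩
      · rw [hR]
        exact fun i => h1 i
      · funext i
        by_cases hi : i ∈ Set.range φ
        · obtain ⟨k, rfl⟩ := hi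
          exact hml _ k
        · exact hmr (f ∘ φ, fun i => f i) ⟨i, hi⟩
    · rintro ⟨x, ⟨h1, h2⟩, rfl⟩
      rw [hT] at h1
      rw [hR] at h2
      have h3 : m x ∘ φ = x.1 := by
        funext k
        exact hml x k
      refine ⟨?_, ?_⟩
      · intro i
        by_cases hi : i ∈ Set.range φ
        · obtain ⟨k, rfl⟩ := hi
          rw [hml]
          exact h1.1 k
        · have h4 := hmr x ⟨i, hi⟩
          rw [h4]
          exact h2 ⟨i, hi⟩
      · rw [h3]
        exact h1.2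
  have hinj : Function.Injective m := by
    intro x y h
    apply Prod.ext
    · funext k
      rw [← hml x k, ← hml y k, h]
    · funext i
      rw [← hmr x i, ← hmr y i, h]
  have hcard : ({f : ι → V | (∀ i, f i ∈ c i) ∧ P (f ∘ φ)}.ncard : ℝ) = (T.ncard : ℝ) *
      ∏ i : ((Set.range φ)ᶜ : Set ι), ((c i).card : ℝ) := by
    rw [hS, Set.ncard_image_of_injective _ hinj, Set.ncard_prod, hRc]
    push_cast
    rfl
  have hpos : (0 : ℝ) < ∏ i : ((Set.range φ)ᶜ : Set ι), ((c i).card : ℝ) := by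
    apply Finset.prod_pos
    intro i _
    have := Finset.card_pos.2 (hc i)
    exact_mod_cast this
  show ({f : ι → V | (∀ i, f i ∈ c i) ∧ P (f ∘ φ)}.ncard : ℝ) / ∏ i, ((c i).card : ℝ) =
    ({f : κ → V | (∀ i, f i ∈ (c ∘ φ) i) ∧ P f}.ncard : ℝ) / ∏ i, (((c ∘ φ) i).card : ℝ)
  rw [hcard, hprod, hT, mul_div_mul_right _ _ hpos.ne']

end Pool.Agent.KK.E.H32
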