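import Pool.Agent.KK.StmtsG

/-!
# Squad KK, row G_EXC: exceptional vertices are few
-/

set_option autoImplicit false

open scoped BigOperators Classical

namespace Pool.Agent.KK.E.H32

theorem image_elim {V κ : Type} [DecidableEq V] [Fintype κ] (f : Unit → V) (g : κ → V) :
    (∅ ∪ Finset.univ.image (Sum.elim f g) : Finset V) = {f ()} ∪ Finset.univ.image g := by
  ext v
  rw [Finset.empty_union, Finset.mem_image, Finset.mem_union, Finset.mem_singleton,
    Finset.mem_image]
  constructor
  · rintro ⟨i, _, hi⟩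
    rcases i with i | i
    · left
      rw [← hi]
      rfl
    · right
      exact ⟨i, Finset.mem_univ _, hi⟩
  · rintro (h | ⟨i, _, hi⟩)
    · exact ⟨Sum.inl (), Finset.mem_univ _, h.symm⟩
    · exact ⟨Sum.inr i, Finset.mem_univ _, hi⟩

theorem image_surj {V κ κ' : Type} [DecidableEq V] [Fintype κ] [Fintype κ'] (h : κ → V)
    (φ : κ' → κ) (hφ : Function.Surjective φ) :
    Finset.univ.image (h ∘ φ) = Finset.univ.image h := by
  ext v
  rw [Finset.mem_image, Finset.mem_image]
  constructor
  · rintro ⟨i, _, hi⟩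
    exact ⟨φ i, Finset.mem_univ _, hi⟩
  · rintro ⟨i, _, hi⟩
    obtain ⟨j, rfl⟩ := hφ i
    exact ⟨j, Finset.mem_univ _, hi⟩

theorem dens_unit {V : Type} [Fintype V] [DecidableEq V] (A C : Finset V)
    (R : (Unit → V) → Prop) (hC : ∀ v, v ∈ C ↔ v ∈ A ∧ R fun _ => v) :
    dens (fun _ : Unit => A) R = (C.card : ℝ) / A.card := by
  unfold dens
  have h1 : {f : Unit → V | (∀ i, f i ∈ A) ∧ R f} = (fun v (_ : Unit) => v) '' (C : Set V) := by
    ext f
    constructor
    · rintro ⟨h1, h2⟩
      refine ⟨f (), ?_, ?_⟩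
      · rw [Finset.mem_coe, hC]
        exact ⟨h1 (), h2⟩
      · funext i
        rfl
    · rintro ⟨v, hv, rfl⟩
      rw [Finset.mem_coe, hC] at hv
      exact ⟨fun _ => hv.1, hv.2⟩
  have h2 : Function.Injective (fun (v : V) (_ : Unit) => v) := fun v w h => congrFun h ()
  rw [h1, Set.ncard_image_of_injective _ h2, Set.ncard_coe_finset]
  congr 1
  simp

theorem gen {V : Type} [Fintype V] [DecidableEq V] (e02 : StmtE02) (e03 : StmtE03)
    (H : Finset (Finset V)) (A C : Finset V) (hA : A.Nonempty) {κ κ' : Type} [Fintype κ]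
    [Fintype κ'] (d : κ → Finset V) (hd : ∀ i, (d i).Nonempty) (φ : κ' → Unit ⊕ κ)
    (hφ : Function.Bijective φ) (τ : ℝ) (hτ : 0 < τ)
    (hC : ∀ v, v ∈ C ↔ v ∈ A ∧ τ < dens d (fun g => {v} ∪ Finset.univ.image g ∈ H)) :
    (C.card : ℝ) * τ ≤
      dens ((Sum.elim (fun _ : Unit => A) d) ∘ φ) (fun g => ∅ ∪ Finset.univ.image g ∈ H) *
        A.card := by
  have hA0 : (0 : ℝ) < A.card := by
    have := Finset.card_pos.2 hA
    exact_mod_cast this
  have h1 := (e03 V Unit κ (fun _ => A) d (fun _ => hA) hd).2.1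
    (fun h : Unit ⊕ κ → V => ∅ ∪ Finset.univ.image h ∈ H) τ hτ
  have h2 : dens (Sum.elim (fun _ : Unit => A) d) (fun h => ∅ ∪ Finset.univ.image h ∈ H) =
      dens ((Sum.elim (fun _ : Unit => A) d) ∘ φ) (fun g => ∅ ∪ Finset.univ.image g ∈ H) := by
    rw [← e02 V (Unit ⊕ κ) κ' (Sum.elim (fun _ : Unit => A) d) φ (by
      intro i
      rcases i with i | i
      · exact hA
      · exact hd i) hφ.1 (fun g => ∅ ∪ Finset.univ.image g ∈ H)]
    congr 1
    funext h
    rw [image_surj h φ hφ.2]
  have h3 : dens (fun _ : Unit => A) (fun f => τ < dens d (fun g =>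
      ∅ ∪ Finset.univ.image (Sum.elim f g) ∈ H)) = (C.card : ℝ) / A.card := by
    apply dens_unit
    intro v
    rw [hC]
    have h4 : (fun g : κ → V => ∅ ∪ Finset.univ.image (Sum.elim (fun _ : Unit => v) g) ∈ H) =
        fun g : κ → V => {v} ∪ Finset.univ.image g ∈ H := by
      funext g
      rw [image_elim]
    rw [h4]
  have h5 : τ * dens (fun _ : Unit => A) (fun f => τ < dens d (fun g =>
      ∅ ∪ Finset.univ.image (Sum.elim f g) ∈ H)) ≤
      dens (Sum.elim (fun _ : Unit => A) d) (fun h => ∅ ∪ Finset.univ.image h ∈ H) := h1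
  rw [h3, h2, ← mul_div_assoc, div_le_iff₀ hA0] at h5
  linarith

/-- the first letter split off on the left -/
def phl (p q : ℕ) : Fin (p + 1) ⊕ Fin q → Unit ⊕ (Fin p ⊕ Fin q) :=
  Sum.elim (Fin.cases (Sum.inl ()) fun j => Sum.inr (Sum.inl j)) fun j => Sum.inr (Sum.inr j)

theorem phl_bij (p q : ℕ) : Function.Bijective (phl p q) := by
  constructor
  · intro x y h
    rcases x with x | x <;> rcases y with y | y
    · refine Fin.cases ?_ (fun i => ?_) x h <;> refine Fin.cases ?_ (fun j => ?_) y
      · intro _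
        rfl
      · intro h
        simp [phl] at h
      · intro h
        simp [phl] at h
      · intro h
        simp [phl] at h
        rw [h]
    · revert h
      refine Fin.cases ?_ (fun i => ?_) x
      · intro h
        simp [phl] at h
      · intro h
        simp [phl] at h
    · revert h
      refine Fin.cases ?_ (fun i => ?_) y
      · intro h
        simp [phl] at h
      · intro h
        simp [phl] at h
    · simp [phl] at h
      rw [h]
  · intro z
    rcases z with z | z | z
    · exact ⟨Sum.inl 0, rfl⟩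
    · exact ⟨Sum.inl z.succ, by simp [phl]⟩
    · exact ⟨Sum.inr z, rfl⟩

/-- the first letter split off on the right -/
def phr (p q : ℕ) : Fin p ⊕ Fin (q + 1) → Unit ⊕ (Fin p ⊕ Fin q) :=
  Sum.elim (fun j => Sum.inr (Sum.inl j)) (Fin.cases (Sum.inl ()) fun j => Sum.inr (Sum.inr j))

theorem phr_bij (p q : ℕ) : Function.Bijective (phr p q) := by
  constructor
  · intro x y h
    rcases x with x | x <;> rcases y with y | y
    · simp [phr] at h
      rw [h]
    · revert h
      refine Fin.cases ?_ (fun i => ?_) y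
      · intro h
        simp [phr] at h
      · intro h
        simp [phr] at h
    · revert h
      refine Fin.cases ?_ (fun i => ?_) x
      · intro h
        simp [phr] at h
      · intro h
        simp [phr] at h
    · refine Fin.cases ?_ (fun i => ?_) x h <;> refine Fin.cases ?_ (fun j => ?_) y
      · intro _
        rfl
      · intro h
        simp [phr] at h
      · intro h
        simp [phr] at h
      · intro h
        simp [phr] at h
        rw [h]
  · intro z
    rcases z with z | z | z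
    · exact ⟨Sum.inr 0, rfl⟩
    · exact ⟨Sum.inl z, rfl⟩
    · exact ⟨Sum.inr z.succ, by simp [phr]⟩

theorem lets_l {V : Type} [Fintype V] [DecidableEq V] (X : Finset V) (p q : ℕ) :
    (Sum.elim (fun _ : Unit => X) (lets X p q)) ∘ phl p q = lets X (p + 1) q := by
  funext x
  rcases x with x | x
  · refine Fin.cases ?_ (fun i => ?_) x
    · rfl
    · simp [phl, lets]
  · rfl

theorem lets_r {V : Type} [Fintype V] [DecidableEq V] (X : Finset V) (p q : ℕ) :
    (Sum.elim (fun _ : Unit => Xᶜ) (lets X p q)) ∘ phr p q = lets X p (q + 1) := by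
  funext x
  rcases x with x | x
  · rfl
  · refine Fin.cases ?_ (fun i => ?_) x
    · rfl
    · simp [phr, lets]

theorem lets_ne {V : Type} [Fintype V] [DecidableEq V] {X : Finset V} (h1 : X.Nonempty)
    (h2 : (Xᶜ).Nonempty) (p q : ℕ) (i : Fin p ⊕ Fin q) : (lets X p q i).Nonempty := by
  rcases i with i | i
  · exact h1
  · exact h2

/-- G11 -/
theorem g_exc (_ : StmtE01) (e02 : StmtE02) (e03 : StmtE03) : StmtG11 := by
  intro V _ _ H X p q η hX hX' hη
  obtain ⟨C, hC⟩ : ∃ C : Finset V, ∀ v, v ∈ C ↔ Non H X p q η {v} :=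
    ⟨Finset.univ.filter fun v => Non H X p q η {v}, fun v => by simp⟩
  refine ⟨C, hC, ?_⟩
  have hN1 : ∀ v ∈ X, (v ∈ C ↔ η 1 < D H X {v} p (q + 1)) := by
    intro v hv
    rw [hC]
    have e1 : ({v} : Finset V) ∩ X = {v} := Finset.inter_eq_left.2 (Finset.singleton_subset_iff.2 hv)
    have e2 : ({v} : Finset V) \ X = ∅ := Finset.sdiff_eq_empty_iff_subset.2
      (Finset.singleton_subset_iff.2 hv)
    unfold Non
    rw [e1, e2, Finset.card_singleton, Finset.card_empty]
    constructor
    · rintro ⟨_, _, h⟩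
      exact h
    · intro h
      exact ⟨by omega, by omega, h⟩
  have hN2 : ∀ v ∉ X, (v ∈ C ↔ η 1 < D H X {v} (p + 1) q) := by
    intro v hv
    rw [hC]
    have e1 : ({v} : Finset V) ∩ X = ∅ := Finset.singleton_inter_of_notMem hv
    have e2 : ({v} : Finset V) \ X = {v} := Finset.sdiff_eq_self_of_disjoint
      (Finset.disjoint_singleton_left.2 hv)
    unfold Non
    rw [e1, e2, Finset.card_singleton, Finset.card_empty]
    constructor
    · rintro ⟨_, _, h⟩
      exact h
    · intro h
      exact ⟨by omega, by omega, h⟩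
  have h1 := gen e02 e03 H X (C ∩ X) hX (lets X p (q + 1)) (lets_ne hX hX' p (q + 1))
    (phl p (q + 1)) (phl_bij p (q + 1)) (η 1) hη (by
      intro v
      rw [Finset.mem_inter]
      constructor
      · rintro ⟨h, hv⟩
        exact ⟨hv, (hN1 v hv).1 h⟩
      · rintro ⟨hv, h⟩
        exact ⟨(hN1 v hv).2 h, hv⟩)
  have h2 := gen e02 e03 H Xᶜ (C ∩ Xᶜ) hX' (lets X (p + 1) q) (lets_ne hX hX' (p + 1) q)
    (phr (p + 1) q) (phr_bij (p + 1) q) (η 1) hη (by
      intro v
      rw [Finset.mem_inter, Finset.mem_compl]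
      constructor
      · rintro ⟨h, hv⟩
        exact ⟨hv, (hN2 v hv).1 h⟩
      · rintro ⟨hv, h⟩
        exact ⟨(hN2 v hv).2 h, hv⟩)
  rw [lets_l] at h1
  rw [lets_r] at h2
  have h3 : (C.card : ℝ) = ((C ∩ X).card : ℝ) + ((C ∩ Xᶜ).card : ℝ) := by
    have h4 : (C ∩ X).card + (C ∩ Xᶜ).card = C.card := by
      rw [← Finset.sdiff_eq_inter_compl, Finset.card_inter_add_card_sdiff]
    exact_mod_cast h4.symm
  have h5 : (X.card : ℝ) + ((Xᶜ : Finset V).card : ℝ) = Fintype.card V := by
    have h6 := Finset.card_add_card_compl X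
    exact_mod_cast h6
  rw [h3, ← h5]
  show _ ≤ dens (lets X (p + 1) (q + 1)) (fun g => ∅ ∪ Finset.univ.image g ∈ H) * _
  nlinarith

end Pool.Agent.KK.E.H32
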